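import Pool.Agent.Helper63.Sey3.Goals

set_option autoImplicit false

/-!
Packet SEY3-COLP: almost all vertices are coloured.
-/

namespace Pool.Agent.Helper24.Sey3

open Pool.Agent.Helper41.Girth4
open Pool.Agent.Helper63.Sey3

/-- It is enough to average over one coordinate. -/
theorem Pr_update {I L : Type} [Finite I] [DecidableEq I] [Finite L] [Nonempty L] (v : I)
    (E : (I → L) → Prop) (p : ℝ) (hp : 0 ≤ p)
    (h : ∀ π : I → L, Pr (fun l : L => E (Function.update π v l)) ≤ p) : Pr E ≤ p := by
  let e : ({j // j ≠ v} → L) × L ≃ (I → L) :=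
    (Equiv.prodComm _ _).trans (Equiv.funSplitAt v L).symm
  have he : ∀ (a : {j // j ≠ v} → L) (b : L) (j : I),
      e (a, b) j = if hj : j = v then b else a ⟨j, hj⟩ := by
    intro a b j
    by_cases hj : j = v
    · subst hj
      rw [dif_pos rfl]
      show (Equiv.funSplitAt j L).symm (b, a) j = b
      simp [Equiv.funSplitAt]
    · rw [dif_neg hj]
      show (Equiv.funSplitAt v L).symm (b, a) j = a ⟨j, hj⟩
      simp [Equiv.funSplitAt, hj]
  rw [← Pr_equiv e E]
  refine Pr_le_of_forall (fun a b => E (e (a, b))) p (fun a => ?_) hp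
  obtain ⟨b0⟩ := (inferInstance : Nonempty L)
  refine le_trans (le_of_eq ?_) (h (e (a, b0)))
  refine Pr_congr fun b => ?_
  have e1 : e (a, b) = Function.update (e (a, b0)) v b := by
    funext j
    by_cases hj : j = v
    · subst hj
      rw [Function.update_self, he, dif_pos rfl]
    · rw [Function.update_of_ne hj, he, he, dif_neg hj, dif_neg hj]
  rw [e1]

/-- The first colour outside of `X` is outside of `X`. -/
theorem pick_spec {q : ℕ} [NeZero q] (π : Equiv.Perm (Fin q)) (X : Fin q → Prop)
    (h : ∃ b, ¬ X b) : ¬ X (Pool.Agent.Helper8.Sey.Sys.pick π X) := by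
  classical
  obtain ⟨b, hb⟩ := h
  have hne : (Finset.univ.filter fun t : Fin q => ¬ X (π t)).Nonempty := by
    refine ⟨π.symm b, ?_⟩
    rw [Finset.mem_filter]
    refine ⟨Finset.mem_univ _, ?_⟩
    rw [Equiv.apply_symm_apply]
    exact hb
  have h2 := Finset.min'_mem _ hne
  rw [Finset.mem_filter] at h2
  unfold Pool.Agent.Helper8.Sey.Sys.pick
  rw [dif_pos hne]
  exact h2.2

theorem card_compl {q : ℕ} (X : Fin q → Prop) :
    Nat.card {b // X b} + Nat.card {b // ¬ X b} = q := by
  classical
  have h := Fintype.card_subtype_compl X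
  have h2 := Fintype.card_subtype_le X
  rw [Fintype.card_fin] at h h2
  rw [Nat.card_eq_fintype_card, Nat.card_eq_fintype_card]
  omega

theorem goalCOLP : GoalPICK → GoalRES → GoalSTL → GoalMISS → GoalCOLP := by
  classical
  intro hPICK hRES hSTL hMISS V _ P κ hκ v
  have hZ : (0 : ℝ) < P.Z := by
    have := P.hZ
    exact_mod_cast this
  have hκ' : (0 : ℝ) < κ := by
    exact_mod_cast hκ
  have hp0 : (0 : ℝ) ≤ (4 * (P.D : ℝ) / P.Z) / κ := by positivity
  let G : P.Om → Prop := fun ω => P.Gd κ ω v ∧ (P.sm ω v : ℝ) ≤ 4 * (P.D : ℝ) / P.Z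
  have hGs : ∀ ω π, G ω → G (P.setpm ω π) := fun ω π h => h
  have hneP : Nonempty (Equiv.Perm (Fin P.q)) := ⟨1⟩
  have key : ∀ ω, G ω →
      Pr (fun π : V → Equiv.Perm (Fin P.q) => P.col (P.setpm ω π) v = none) ≤
        (4 * (P.D : ℝ) / P.Z) / κ := by
    intro ω hG
    refine Pr_update v _ _ hp0 fun π => ?_
    obtain ⟨c, hc⟩ : ∃ c, c = P.st (P.setpm ω π) (P.rd (ω v)) := ⟨_, rfl⟩
    have hst : ∀ l, P.st (P.setpm ω (Function.update π v l)) (P.rd (ω v)) = c := by
      intro l
      rw [hc]
      refine (hSTL V P ω _ _ (P.rd (ω v)) ?_).1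
      intro x hx
      refine Function.update_of_ne ?_ _ _
      rintro rfl
      exact lt_irrefl _ hx
    have hgd : Nat.card {a // P.used c v a} + κ ≤ P.D := by
      rw [hc]
      exact hMISS V P κ (P.setpm ω π) v (P.rd (ω v)) hG.1
    have hun : κ ≤ Nat.card {b // ¬ P.used c v b} := by
      have h1 := card_compl (P.used c v)
      have h2 := P.D_le_q
      omega
    have hex : ∃ b, ¬ P.used c v b := by
      have h1 : 0 < Nat.card {b // ¬ P.used c v b} := lt_of_lt_of_le hκ hun
      obtain ⟨b⟩ := (Nat.card_pos_iff.1 h1).1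
      exact ⟨b.1, b.2⟩
    have hrZ : P.rd (ω v) + 1 ≤ P.Z := P.rd_lt (ω v)
    by_cases hcv : c v = none
    · let S : Finset V := Finset.univ.filter fun y => P.Own v y ∧ P.rd (ω y) = P.rd (ω v)
      let A : Finset (Fin P.q) := S.image fun y =>
        Pool.Agent.Helper8.Sey.Sys.pick (π y) (P.used c y)
      have hS : S.card = P.sm ω v := by
        unfold Sy.sm
        rw [Nat.card_eq_fintype_card, Fintype.card_subtype]
      have hA : (A.card : ℝ) ≤ 4 * (P.D : ℝ) / P.Z := by
        refine le_trans ?_ hG.2
        rw [← hS]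
        exact_mod_cast Finset.card_image_le
      have hsub : ∀ l : Equiv.Perm (Fin P.q),
          P.col (P.setpm ω (Function.update π v l)) v = none →
          Pool.Agent.Helper8.Sey.Sys.pick l (P.used c v) ∈ A := by
        intro l hl
        have h1 : P.st (P.setpm ω (Function.update π v l)) (P.rd (ω v) + 1) v = none := by
          by_contra hne
          have h2 := P.st_mono (P.setpm ω (Function.update π v l)) hrZ hne
          exact hne (h2.symm.trans hl)
        rw [P.st_succ, hst l] at h1
        have hpv : P.pk (P.setpm ω (Function.update π v l)) c v =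
            Pool.Agent.Helper8.Sey.Sys.pick l (P.used c v) := by
          show Pool.Agent.Helper8.Sey.Sys.pick (Function.update π v l v) (P.used c v) = _
          rw [Function.update_self]
        rcases P.stp_none (P.setpm ω (Function.update π v l)) hcv h1 with h2 | h2
        · exfalso
          rw [hpv] at h2
          exact pick_spec l (P.used c v) hex h2
        · obtain ⟨y, hy1, -, -, hy4, hy5⟩ := h2
          have hyv : y ≠ v := (P.own_ne hy1).symm
          have hpy : P.pk (P.setpm ω (Function.update π v l)) c y =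
              Pool.Agent.Helper8.Sey.Sys.pick (π y) (P.used c y) := by
            show Pool.Agent.Helper8.Sey.Sys.pick (Function.update π v l y) (P.used c y) = _
            rw [Function.update_of_ne hyv]
          rw [hpv, hpy] at hy5
          rw [← hy5]
          refine Finset.mem_image_of_mem (fun y =>
            Pool.Agent.Helper8.Sey.Sys.pick (π y) (P.used c y)) ?_
          rw [Finset.mem_filter]
          exact ⟨Finset.mem_univ _, hy1, hy4⟩
      refine (Pr_mono hsub).trans ((hPICK P.q (P.used c v) A κ hκ hun).trans ?_)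
      exact div_le_div_of_nonneg_right hA hκ'.le
    · refine (Pr_mono (B := fun _ => False) fun l hl => ?_).trans ?_
      · have h1 : P.st (P.setpm ω (Function.update π v l)) (P.rd (ω v)) v ≠ none := by
          rw [hst l]
          exact hcv
        have h2 := P.st_mono (P.setpm ω (Function.update π v l)) (by omega : P.rd (ω v) ≤ P.Z) h1
        exact h1 (h2.symm.trans hl)
      · rw [Pr_false]
        exact hp0
  have h1 := (hRES V P G (fun ω => P.col ω v = none) _ hp0 hGs).1 key
  have h2 : Pr (fun ω : P.Om => P.col ω v = none) ≤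
      Pr (fun ω : P.Om => (¬ P.Gd κ ω v ∨ 4 * (P.D : ℝ) / P.Z < P.sm ω v) ∨
        (G ω ∧ P.col ω v = none)) := by
    refine Pr_mono fun ω hω => ?_
    by_cases ha : P.Gd κ ω v
    · by_cases hb : (P.sm ω v : ℝ) ≤ 4 * (P.D : ℝ) / P.Z
      · exact Or.inr ⟨⟨ha, hb⟩, hω⟩
      · exact Or.inl (Or.inr (not_le.1 hb))
    · exact Or.inl (Or.inl ha)
  refine h2.trans ((Pr_or_le _ _).trans ?_)
  exact add_le_add (Pr_or_le _ _) h1

end Pool.Agent.Helper24.Sey3
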